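import Pool.Agent.U251.LD.Stm

/-!
# Project LD, package D4I: the pointwise identity `d(n)² = ∑_(e² | n) μ(e) d₄(n / e²)`
-/

set_option autoImplicit false

namespace Pool.Agent.U454.LD

open Pool.Agent.U251.LD ArithmeticFunction

/-- the number of divisors as an arithmetic function -/
noncomputable def Df : ArithmeticFunction ℝ := ⟨fun n => dv n, by simp [dv]⟩

/-- `μ(e)` at `e ^ 2` -/
noncomputable def Sf : ArithmeticFunction ℝ :=
  ⟨fun m => if IsSquare m then ((moebius (Nat.sqrt m) : ℤ) : ℝ) else 0, by simp⟩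

theorem Df_apply (n : ℕ) : Df n = dv n := rfl

theorem Sf_apply (n : ℕ) :
    Sf n = if IsSquare n then ((moebius (Nat.sqrt n) : ℤ) : ℝ) else 0 := rfl

theorem Sf_sq (e : ℕ) : Sf (e ^ 2) = ((moebius e : ℤ) : ℝ) := by
  rw [Sf_apply, if_pos ⟨e, sq e⟩, Nat.sqrt_eq']

theorem Sf_not {n : ℕ} (h : ¬ IsSquare n) : Sf n = 0 := by
  rw [Sf_apply, if_neg h]

theorem Df_mul : Df.IsMultiplicative := by
  refine ⟨by simp [Df_apply, dv], fun {m n} h => ?_⟩
  rw [Df_apply, Df_apply, Df_apply, dv, dv, dv, h.card_divisors_mul]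
  push_cast
  rfl

theorem sq_left {m n : ℕ} (h : Nat.Coprime m n) (hs : IsSquare (m * n)) : IsSquare m := by
  obtain ⟨c, hc⟩ := hs
  have h1 : IsUnit (gcd m n) := by
    rw [Nat.isUnit_iff]
    exact h
  obtain ⟨d, hd⟩ := exists_eq_pow_of_mul_eq_pow h1 (hc.trans (sq c).symm)
  exact ⟨d, hd.trans (sq d)⟩

theorem Sf_mul : Sf.IsMultiplicative := by
  refine ⟨?_, fun {m n} h => ?_⟩
  · have h := Sf_sq 1
    simpa using h
  · by_cases hm : IsSquare m
    · by_cases hn : IsSquare n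
      · obtain ⟨a, rfl⟩ := hm
        obtain ⟨b, rfl⟩ := hn
        have hab : Nat.Coprime a b :=
          Nat.Coprime.coprime_dvd_left (dvd_mul_right a a)
            (Nat.Coprime.coprime_dvd_right (dvd_mul_right b b) h)
        have e1 : a * a * (b * b) = (a * b) ^ 2 := by ring
        rw [e1, ← sq a, ← sq b, Sf_sq, Sf_sq, Sf_sq,
          isMultiplicative_moebius.map_mul_of_coprime hab]
        push_cast
        rfl
      · rw [Sf_not hn, mul_zero, Sf_not]
        intro h1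
        rw [mul_comm] at h1
        exact hn (sq_left h.symm h1)
    · rw [Sf_not hm, zero_mul, Sf_not]
      intro h1
      exact hm (sq_left h h1)

theorem d4_eq (n : ℕ) : (Df * Df) n = d4 n := by
  rw [mul_apply]
  rfl

theorem G_eq (n : ℕ) (hn : 0 < n) :
    ∑ e ∈ (Finset.Icc 1 n).filter (fun e => e ^ 2 ∣ n), ((moebius e : ℤ) : ℝ) * d4 (n / e ^ 2) =
      (Sf * (Df * Df)) n := by
  classical
  rw [mul_apply, Nat.sum_divisorsAntidiagonal (fun a b => Sf a * (Df * Df) b)]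
  have himg : ((Finset.Icc 1 n).filter (fun e => e ^ 2 ∣ n)).image (fun e => e ^ 2) ⊆
      n.divisors := by
    intro i hi
    obtain ⟨e, he, rfl⟩ := Finset.mem_image.1 hi
    exact Nat.mem_divisors.2 ⟨(Finset.mem_filter.1 he).2, hn.ne'⟩
  rw [← Finset.sum_subset himg]
  · rw [Finset.sum_image]
    · refine Finset.sum_congr rfl fun e _ => ?_
      rw [Sf_sq, d4_eq]
    · intro a _ b _ hab
      exact Nat.pow_left_injective two_ne_zero hab
  · intro i hi hni
    rw [Sf_not, zero_mul]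
    rintro ⟨e, rfl⟩
    apply hni
    have h1 := Nat.dvd_of_mem_divisors hi
    have he : e ≠ 0 := by
      rintro rfl
      rw [zero_mul, zero_dvd_iff] at h1
      omega
    refine Finset.mem_image.2 ⟨e, Finset.mem_filter.2 ⟨Finset.mem_Icc.2 ⟨by omega, ?_⟩, ?_⟩, sq e⟩
    · exact le_trans (Nat.le_mul_self e) (Nat.le_of_dvd hn h1)
    · rw [sq]
      exact h1

theorem dv_pp {p : ℕ} (hp : p.Prime) (k : ℕ) : dv (p ^ k) = (k : ℝ) + 1 := by
  rw [dv, Nat.divisors_prime_pow hp, Finset.card_map, Finset.card_range]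
  push_cast
  rfl

theorem sum_aux (n : ℕ) (c : ℝ) : ∑ i ∈ Finset.range n, ((i : ℝ) + 1) * (c - i) =
    c * n * (n + 1) / 2 - ((n : ℝ) - 1) * n * (n + 1) / 3 := by
  induction n with
  | zero => simp
  | succ n ih =>
    rw [Finset.sum_range_succ, ih]
    push_cast
    ring

theorem d4_pp {p : ℕ} (hp : p.Prime) (k : ℕ) :
    (Df * Df) (p ^ k) = ((k : ℝ) + 1) * (k + 2) * (k + 3) / 6 := by
  rw [mul_apply, Nat.sum_divisorsAntidiagonal (fun a b => Df a * Df b),
    Nat.sum_divisors_prime_pow hp]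
  have h1 : ∀ i ∈ Finset.range (k + 1), Df (p ^ i) * Df (p ^ k / p ^ i) =
      ((i : ℝ) + 1) * ((k : ℝ) + 1 - i) := by
    intro i hi
    have hik : i ≤ k := Nat.lt_succ_iff.1 (Finset.mem_range.1 hi)
    rw [Nat.pow_div hik hp.pos, Df_apply, Df_apply, dv_pp hp, dv_pp hp, Nat.cast_sub hik]
    ring
  rw [Finset.sum_congr rfl h1, sum_aux]
  push_cast
  ring

theorem Sf_p {p : ℕ} (hp : p.Prime) : Sf p = 0 :=
  Sf_not (Nat.prime_iff.1 hp).irreducible.not_isSquare

theorem Sf_pp {p : ℕ} (hp : p.Prime) (i : ℕ) : Sf (p ^ (i + 3)) = 0 := by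
  by_cases h : IsSquare (p ^ (i + 3))
  · obtain ⟨r, hr⟩ := h
    obtain ⟨s, hs, rfl⟩ := (Nat.dvd_prime_pow hp).1 (⟨r, hr⟩ : r ∣ p ^ (i + 3))
    rw [← pow_add] at hr
    have h1 := Nat.pow_right_injective hp.two_le hr
    rw [hr, pow_add, ← sq, Sf_sq, moebius_apply_prime_pow hp (by omega), if_neg (by omega)]
    simp
  · exact Sf_not h

theorem G_pp {p : ℕ} (hp : p.Prime) (k : ℕ) : (Sf * (Df * Df)) (p ^ k) = ((k : ℝ) + 1) ^ 2 := by
  rw [mul_apply, Nat.sum_divisorsAntidiagonal (fun a b => Sf a * (Df * Df) b),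
    Nat.sum_divisors_prime_pow hp]
  have hS0 : Sf (p ^ 0) = 1 := by
    rw [pow_zero]
    exact Sf_mul.map_one
  rcases k with _ | _ | k
  · rw [Finset.sum_range_one, hS0, Nat.div_self (by positivity)]
    have := d4_pp hp 0
    rw [pow_zero] at this
    rw [this]
    norm_num
  · rw [Finset.sum_range_succ, Finset.sum_range_one, hS0, pow_one, Sf_p hp, pow_zero, Nat.div_one]
    have := d4_pp hp 1
    rw [pow_one] at this
    rw [this]
    norm_num
  · rw [Finset.sum_range_succ', Finset.sum_range_succ', Finset.sum_range_succ']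
    have h0 : ∑ i ∈ Finset.range k, Sf (p ^ (i + 1 + 1 + 1)) *
        (Df * Df) (p ^ (k + 1 + 1) / p ^ (i + 1 + 1 + 1)) = 0 := by
      refine Finset.sum_eq_zero fun i _ => ?_
      rw [Sf_pp hp i, zero_mul]
    rw [h0, hS0]
    have h1 : Sf (p ^ (0 + 1)) = 0 := by
      rw [zero_add, pow_one]
      exact Sf_p hp
    have h2 : Sf (p ^ (0 + 1 + 1)) = -1 := by
      have := Sf_sq p
      rw [moebius_apply_prime hp] at this
      simpa using this
    have e1 : p ^ (k + 1 + 1) / p ^ (0 + 1 + 1) = p ^ k := by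
      rw [Nat.pow_div (by omega) hp.pos]
      congr 1
    have e2 : p ^ (k + 1 + 1) / p ^ 0 = p ^ (k + 1 + 1) := by
      rw [pow_zero, Nat.div_one]
    rw [h1, h2, e1, e2, d4_pp hp, d4_pp hp]
    push_cast
    ring

theorem t_D4I : S_D4I := by
  intro n hn
  rw [G_eq n hn]
  have key : Df.pmul Df = Sf * (Df * Df) := by
    rw [IsMultiplicative.eq_iff_eq_on_prime_powers _ (Df_mul.pmul Df_mul) _
      (Sf_mul.mul (Df_mul.mul Df_mul))]
    intro p i hp
    rw [G_pp hp, pmul_apply, Df_apply, dv_pp hp]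
    ring
  rw [← key, pmul_apply, Df_apply]
  ring

end Pool.Agent.U454.LD
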